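import Mathlib
import Pool.Agent.H418.F2.Odd
import Pool.Agent.H418.F2.Std

/-!
# Absolutely irreducible counterexamples, for `G = SL_2 ^ m`, `p = 3`, `S = {163}`

Let `r` be the homomorphism from the absolute Galois group of `ℚ` to `PGL_2(k)`, `k` finite of
characteristic `3`, given by the totally real `A_4` extension of `ℚ` generated by the roots of
`X ^ 4 - X ^ 3 - 7 X ^ 2 + 2 X + 9` (of discriminant `163 ^ 2`) and by the isomorphism of `A_4` with
`PSL_2(F_3)`.  It is unramified outside `163`, and the inertia groups at `163` map onto the
subgroups generated by a unipotent element of order `3`.  For every `m > 0` divisible by `3` the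
diagonal homomorphism `(r, …, r)` to `PGL_2(k) ^ m` satisfies all the hypotheses of the question
for `G = SL_2 ^ m`, every strongly regular weight with even entries, and `S = {163}`; it is
absolutely irreducible, and all the cohomology groups in the question vanish.

The definitions (`G`, `borel`, `Gamma0`, `IsIrreducibleOfHighestWeight`, `IsStableLattice`, `H`,
`Hypotheses`, `IsAbsolutelyIrreducible`, …) are in `Pool.Agent.H418.F2.Defs`.
-/

set_option autoImplicit false

open Matrix
open scoped MatrixGroups

namespace Pool.Agent.Results.MP_f2eb9c_nt.IrreducibleCounterexample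

open Pool.Agent.H418.F2

/-- All the cohomology groups `H^i(Γ₀(N), M ⊗ k)` of the question vanish: for every `i`, every `N`
and every stable lattice `M` in an irreducible representation of highest weight `x - ρ`. -/
def CohomologyVanishes {m : ℕ} (x : Fin m → ℤ) (k : Type) [Field k] : Prop :=
  ∀ (V : Type) [AddCommGroup V] [Module ℚ V] (π : Representation ℚ (G m ℚ) V),
    IsIrreducibleOfHighestWeight π (fun j => x j - rho m j) →
    ∀ (M : Submodule ℤ V) (hM : IsStableLattice π M) (N i : ℕ), Subsingleton (H hM N k i)

/-- There are an irreducible representation of highest weight `x - ρ` and a stable lattice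
in it. -/
def HasStableLattice {m : ℕ} (x : Fin m → ℤ) : Prop :=
  ∃ (V : Type) (_ : AddCommGroup V) (_ : Module ℚ V) (π : Representation ℚ (G m ℚ) V),
    IsIrreducibleOfHighestWeight π (fun j => x j - rho m j) ∧
    ∃ M : Submodule ℤ V, IsStableLattice π M

/-- **Main theorem.**

Let `k` be a finite field of characteristic `3`. There is a homomorphism `r` from `GQ` to `PGL_2(k)`
such that for every `m > 0`:

1. for every weight `x` of `SL_2 ^ m` whose entries are all even and at least `2`, the homomorphism
`(r, …, r)` is absolutely irreducible; it satisfies all the hypotheses of the question for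
`G = SL_2 ^ m`, `p = 3`, the weight `x` and `S = {163}` if and only if `3` divides `m`; and all the
groups `H^i(Γ₀(N), M ⊗ k)` vanish (for every `N`, every `i` and every stable lattice `M` in an
irreducible representation of highest weight `x - ρ`), so that no Hecke eigenclass in any degree
matches `(r, …, r)`;

2. for the weight `x = (2, …, 2)` there are an irreducible representation of highest weight
`x - ρ` and a stable lattice in it. -/
theorem result (k : Type) [Field k] [Finite k] [CharP k 3] :
    ∃ r : GQ →* PGL(2, k), ∀ (m : ℕ), 0 < m →
      (∀ (x : Fin m → ℤ), (∀ j, Even (x j) ∧ 2 ≤ x j) →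
        IsAbsolutelyIrreducible (diagonal m r) ∧
        (Hypotheses 3 k x {163} (diagonal m r) ↔ 3 ∣ m) ∧ CohomologyVanishes x k) ∧
      HasStableLattice (fun _ : Fin m => 2) := by
  refine ⟨rr k, fun m hm => ⟨fun x hx => ⟨irred k m, hypotheses_iff k x hx, ?_⟩, ?_⟩⟩
  · intro V _ _ π hπ M hM N i
    have hodd : Odd (x ⟨0, hm⟩ - rho m ⟨0, hm⟩) := by
      unfold rho
      exact (hx ⟨0, hm⟩).1.sub_odd odd_one
    have h2 : (2 : k) ≠ 0 := by
      intro h
      have h1 : ((2 : ℕ) : k) = 0 := by exact_mod_cast h
      rw [CharP.cast_eq_zero_iff k 3] at h1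
      revert h1
      decide
    exact vanishing ⟨0, hm⟩ hπ hodd hM N k h2 i
  · exact ⟨Ix m → ℚ, inferInstance, inferInstance, piStd m,
      ⟨piStd_irr m, piStd_highest m⟩, piStd_lattice m⟩

end Pool.Agent.Results.MP_f2eb9c_nt.IrreducibleCounterexample
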